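import Mathlib

set_option autoImplicit false

/-!
`k`-trees, linear embeddings, local and union page numbers.
-/

namespace Pool.Agent.PageNum

/-- `k`-trees: the complete graph on `k + 1` vertices is a `k`-tree, and so is a graph with a vertex
`v` whose neighbourhood is a clique of order `k` and whose deletion leaves a `k`-tree. -/
inductive IsKTree (k : ℕ) : {V : Type} → SimpleGraph V → Prop
  | complete {V : Type} (h : Nat.card V = k + 1) : IsKTree k (⊤ : SimpleGraph V)
  | add {V : Type} (G : SimpleGraph V) (v : V) (hG : IsKTree k (G.induce ({v}ᶜ : Set V)))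
      (hc : G.IsClique (G.neighborSet v)) (hk : (G.neighborSet v).ncard = k) : IsKTree k G

section

variable {V : Type}

/-- Two edges `uv`, `wx` cross (in the spine order) if `u < w < v < x` or `w < u < x < v` for a
suitable naming of their ends. -/
def Cross [LinearOrder V] (e f : Sym2 V) : Prop :=
  ∃ u w v x : V, u < w ∧ w < v ∧ v < x ∧
    ((e = s(u, v) ∧ f = s(w, x)) ∨ (f = s(u, v) ∧ e = s(w, x)))

/-- No two edges of the set cross. -/
def CrossingFree [LinearOrder V] (F : Set (Sym2 V)) : Prop :=
  ∀ e ∈ F, ∀ f ∈ F, ¬ Cross e f

/-- A partition of the edges of `G` into pages is given by a function `page`; this is the page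
number `p`. -/
def pageEdges (G : SimpleGraph V) (page : Sym2 V → ℕ) (p : ℕ) : Set (Sym2 V) :=
  {e | e ∈ G.edgeSet ∧ page e = p}

/-- There is a linear embedding in which every page is crossing-free and every vertex is incident
to edges from at most `m` pages. -/
def HasLocal (G : SimpleGraph V) (m : ℕ) : Prop :=
  ∃ (_ : LinearOrder V) (page : Sym2 V → ℕ),
    (∀ p, CrossingFree (pageEdges G page p)) ∧
    ∀ v : V, {p | ∃ e ∈ pageEdges G page p, v ∈ e}.encard ≤ m

/-- There is a linear embedding with (at most) `m` pages such that for every page `p` the edges of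
`p` in each connected component of the graph formed by the edges of `p` are crossing-free. -/
def HasUnion (G : SimpleGraph V) (m : ℕ) : Prop :=
  ∃ (_ : LinearOrder V) (page : Sym2 V → ℕ),
    (∀ e ∈ G.edgeSet, page e < m) ∧
    ∀ p, ∀ C : (SimpleGraph.fromEdgeSet (pageEdges G page p)).ConnectedComponent,
      CrossingFree {e | e ∈ pageEdges G page p ∧ ∀ v ∈ e, v ∈ C.supp}

/-- the local page number -/
noncomputable def localPageNumber (G : SimpleGraph V) : ℕ := sInf {m | HasLocal G m}

/-- the union page number -/
noncomputable def unionPageNumber (G : SimpleGraph V) : ℕ := sInf {m | HasUnion G m}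

end

end Pool.Agent.PageNum
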