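import Pool.Agent.PageNum.Defs

set_option autoImplicit false

/-!
The infinite complete `k`-tree and its finite parts.
-/

namespace Pool.Agent.PageNum

open SimpleGraph

theorem IsKTree.iso {k : ℕ} {V : Type} {G : SimpleGraph V} (h : IsKTree k G) :
    ∀ {W : Type} {H : SimpleGraph W}, (G ≃g H) → IsKTree k H := by
  induction h with
  | @complete V h =>
    intro W H e
    have hH : H = ⊤ := by
      ext a b
      have := e.symm.map_rel_iff (a := a) (b := b)
      rw [← this]
      simp
    rw [hH]
    exact IsKTree.complete (by rw [← h]; exact (Nat.card_congr e.toEquiv).symm)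
  | @add V G v hG hc hk ih =>
    intro W H e
    have hn : H.neighborSet (e v) = e '' G.neighborSet v := by
      ext w
      constructor
      · intro hw
        refine ⟨e.symm w, ?_, by simp⟩
        have : H.Adj (e v) (e (e.symm w)) := by simpa using hw
        exact e.map_rel_iff.1 this
      · rintro ⟨u, hu, rfl⟩
        exact e.map_rel_iff.2 hu
    refine IsKTree.add H (e v) ?_ ?_ ?_
    · refine ih ?_
      refine ⟨e.toEquiv.subtypeEquiv ?_, ?_⟩
      · intro a
        simp
      · intro a b
        show H.Adj (e a.1) (e b.1) ↔ G.Adj a.1 b.1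
        exact e.map_rel_iff
    · rw [hn]
      rintro _ ⟨a, ha, rfl⟩ _ ⟨b, hb, rfl⟩ hab
      exact e.map_rel_iff.2 (hc ha hb (fun h => hab (by rw [h])))
    · rw [hn, Set.ncard_image_of_injective _ e.injective, hk]

/-- cliques of the infinite complete `k`-tree -/
abbrev Node (k : ℕ) : Type := List (ℕ × Fin k)

/-- vertices: the root clique, and the `n`-th child of a clique -/
abbrev Vert (k : ℕ) : Type := Fin k ⊕ (Node k × ℕ)

variable {k : ℕ}

/-- the vertices of a clique -/
def Kq : Node k → Fin k → Vert k
  | [] => Sum.inl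
  | (n, j) :: s => Function.update (Kq s) j (Sum.inr (s, n))

theorem Kq_cons (n : ℕ) (j : Fin k) (s : Node k) :
    Kq ((n, j) :: s) = Function.update (Kq s) j (Sum.inr (s, n)) := rfl

/-- generation of a vertex -/
def rk : Vert k → ℕ
  | Sum.inl _ => 0
  | Sum.inr (s, _) => s.length + 1

theorem rk_Kq (s : Node k) (j : Fin k) : rk (Kq s j) ≤ s.length := by
  induction s with
  | nil => exact Nat.le_refl 0
  | cons x s ih =>
    obtain ⟨n, i⟩ := x
    rw [Kq_cons]
    by_cases h : j = i
    · subst h
      rw [Function.update_self]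
      exact Nat.le_refl _
    · rw [Function.update_of_ne h]
      exact ih.trans (by simp)

theorem Kq_inj (s : Node k) : Function.Injective (Kq s) := by
  induction s with
  | nil => exact Sum.inl_injective
  | cons x s ih =>
    obtain ⟨n, i⟩ := x
    rw [Kq_cons]
    have hne : ∀ j, Kq s j ≠ Sum.inr (s, n) := by
      intro j h
      have := rk_Kq s j
      rw [h] at this
      have h2 : rk (Sum.inr (s, n) : Vert k) = s.length + 1 := rfl
      omega
    intro a b hab
    by_cases ha : a = i
    · by_cases hb : b = i
      · rw [ha, hb]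
      · subst ha
        rw [Function.update_self, Function.update_of_ne hb] at hab
        exact absurd hab.symm (hne b)
    · by_cases hb : b = i
      · subst hb
        rw [Function.update_self, Function.update_of_ne ha] at hab
        exact absurd hab (hne a)
      · rw [Function.update_of_ne ha, Function.update_of_ne hb] at hab
        exact ih hab

/-- adjacency from the younger to the older vertex, and in the root clique -/
def Rel (u v : Vert k) : Prop :=
  (∃ i j, u = Sum.inl i ∧ v = Sum.inl j) ∨ (∃ s n j, u = Sum.inr (s, n) ∧ v = Kq s j)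

/-- the infinite complete `k`-tree -/
def T (k : ℕ) : SimpleGraph (Vert k) := SimpleGraph.fromRel Rel

theorem adj_child (s : Node k) (n : ℕ) (j : Fin k) : (T k).Adj (Sum.inr (s, n)) (Kq s j) := by
  rw [T, fromRel_adj]
  refine ⟨?_, Or.inl (Or.inr ⟨s, n, j, rfl, rfl⟩)⟩
  intro h
  have := rk_Kq s j
  rw [← h] at this
  have h2 : rk (Sum.inr (s, n) : Vert k) = s.length + 1 := rfl
  omega

theorem adj_root {i j : Fin k} (h : i ≠ j) : (T k).Adj (Sum.inl i) (Sum.inl j) := by
  rw [T, fromRel_adj]
  exact ⟨fun h' => h (Sum.inl_injective h'), Or.inl (Or.inl ⟨i, j, rfl, rfl⟩)⟩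

theorem adj_Kq (s : Node k) {i j : Fin k} (h : i ≠ j) : (T k).Adj (Kq s i) (Kq s j) := by
  induction s with
  | nil => exact adj_root h
  | cons x s ih =>
    obtain ⟨n, l⟩ := x
    rw [Kq_cons]
    by_cases hi : i = l
    · subst hi
      rw [Function.update_self, Function.update_of_ne h.symm]
      exact adj_child s n j
    · by_cases hj : j = l
      · subst hj
        rw [Function.update_self, Function.update_of_ne h]
        exact (adj_child s n i).symm
      · rw [Function.update_of_ne hi, Function.update_of_ne hj]
        exact ih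

/-- older neighbours of a child -/
theorem adj_old {s : Node k} {n : ℕ} {u : Vert k} (h : (T k).Adj (Sum.inr (s, n)) u)
    (hr : rk u ≤ s.length + 1) : ∃ j, u = Kq s j := by
  rw [T, fromRel_adj] at h
  obtain ⟨hne, h⟩ := h
  rcases h with h | h
  · rcases h with ⟨i, j, h1, -⟩ | ⟨s', n', j, h1, h2⟩
    · exact absurd h1 (by simp)
    · rw [Sum.inr.injEq, Prod.mk.injEq] at h1
      obtain ⟨rfl, rfl⟩ := h1
      exact ⟨j, h2⟩
  · rcases h with ⟨i, j, -, h1⟩ | ⟨s', n', j, h1, h2⟩
    · exact absurd h1 (by simp)
    · exfalso
      have h3 := rk_Kq s' j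
      rw [← h2] at h3
      rw [h1] at hr
      have h4 : rk (Sum.inr (s', n') : Vert k) = s'.length + 1 := rfl
      have h5 : rk (Sum.inr (s, n) : Vert k) = s.length + 1 := rfl
      omega

/-- closed under taking parents -/
def PC (F : Set (Vert k)) : Prop :=
  (∀ j, Sum.inl j ∈ F) ∧ ∀ s n, Sum.inr (s, n) ∈ F → ∀ j, Kq s j ∈ F

theorem ktree_of_PC (hk : 0 < k) (N : ℕ) : ∀ F : Set (Vert k), F.Finite → F.ncard = N → PC F →
    (∃ s n, Sum.inr (s, n) ∈ F) → IsKTree k ((T k).induce F) := by
  induction N with
  | zero =>
    intro F hF hN _ ⟨s, n, h⟩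
    rw [Set.ncard_eq_zero hF] at hN
    rw [hN] at h
    exact absurd h (Set.notMem_empty _)
  | succ N ih =>
    intro F hF hN hPC hex
    obtain ⟨s0, n0, h0⟩ := hex
    obtain ⟨v, hvF, hvmax⟩ := Set.exists_max_image F rk hF ⟨_, h0⟩
    have hv1 : 1 ≤ rk v := by
      refine le_trans ?_ (hvmax _ h0)
      show 1 ≤ s0.length + 1
      omega
    obtain ⟨s, n, rfl⟩ : ∃ s n, v = Sum.inr (s, n) := by
      rcases v with j | ⟨s, n⟩
      · exact absurd hv1 (by show ¬ 1 ≤ 0; omega)
      · exact ⟨s, n, rfl⟩
    have hrv : rk (Sum.inr (s, n) : Vert k) = s.length + 1 := rfl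
    set v : Vert k := Sum.inr (s, n) with hv
    have hF' : (F \ {v}).Finite := hF.subset Set.sdiff_subset
    have hN' : (F \ {v}).ncard = N := by
      have := Set.ncard_sdiff_singleton_add_one hvF hF
      omega
    have hPC' : PC (F \ {v}) := by
      refine ⟨fun j => ⟨hPC.1 j, by rw [hv]; simp⟩, ?_⟩
      intro s' n' h' j
      refine ⟨hPC.2 s' n' h'.1 j, ?_⟩
      intro h2
      rw [Set.mem_singleton_iff] at h2
      have h3 := rk_Kq s' j
      have h4 : rk (Sum.inr (s', n') : Vert k) = s'.length + 1 := rfl
      have h5 := hvmax _ h'.1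
      rw [h2] at h3
      omega
    have hnb : ∀ u : F, ((T k).induce F).Adj ⟨v, hvF⟩ u ↔ ∃ j, u.1 = Kq s j := by
      intro u
      constructor
      · intro h
        have h' : (T k).Adj v u.1 := by simpa using h
        exact adj_old h' (by have := hvmax _ u.2; omega)
      · rintro ⟨j, hj⟩
        have : (T k).Adj v u.1 := by rw [hj]; exact adj_child s n j
        simpa using this
    by_cases hex' : ∃ s n, Sum.inr (s, n) ∈ F \ {v}
    · have hi := ih _ hF' hN' hPC' hex'
      refine IsKTree.add _ ⟨v, hvF⟩ ?_ ?_ ?_
      · refine hi.iso ?_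
        refine ⟨⟨fun u => ⟨⟨u.1, u.2.1⟩, fun h => u.2.2 (congrArg Subtype.val h)⟩,
          fun u => ⟨u.1.1, u.1.2, fun h => u.2 (Subtype.ext h)⟩, fun u => rfl, fun u => rfl⟩, ?_⟩
        intro a b
        rfl
      · intro a ha b hb hab
        obtain ⟨i, hi⟩ := (hnb a).1 ha
        obtain ⟨j, hj⟩ := (hnb b).1 hb
        have hij : i ≠ j := by
          rintro rfl
          exact hab (Subtype.ext (hi.trans hj.symm))
        have : (T k).Adj a.1 b.1 := by
          rw [hi, hj]
          exact adj_Kq s hij
        simpa using this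
      · have : (((T k).induce F).neighborSet ⟨v, hvF⟩) =
            Set.range (fun j : Fin k => (⟨Kq s j, hPC.2 s n hvF j⟩ : F)) := by
          ext u
          rw [mem_neighborSet, hnb]
          constructor
          · rintro ⟨j, hj⟩
            exact ⟨j, Subtype.ext hj.symm⟩
          · rintro ⟨j, rfl⟩
            exact ⟨j, rfl⟩
        rw [this, Set.ncard_eq_toFinset_card', Set.toFinset_range,
          Finset.card_image_of_injective, Finset.card_univ, Fintype.card_fin]
        intro a b hab
        exact Kq_inj s (congrArg Subtype.val hab)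
    · push Not at hex'
      have hs : s = [] := by
        rcases s with _ | ⟨⟨m, j⟩, s'⟩
        · rfl
        · exfalso
          have h1 := hPC'.2 s' m
          have h2 := hPC.2 _ n hvF j
          rw [Kq_cons, Function.update_self] at h2
          refine hex' s' m ⟨h2, ?_⟩
          intro h3
          rw [Set.mem_singleton_iff, hv, Sum.inr.injEq, Prod.mk.injEq] at h3
          have := congrArg List.length h3.1
          simp at this
      have hFeq : F = Set.insert v (Set.range Sum.inl) := by
        ext u
        constructor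
        · intro hu
          rcases u with j | ⟨s', n'⟩
          · right; exact ⟨j, rfl⟩
          · left
            by_contra hne
            exact hex' s' n' ⟨hu, hne⟩
        · rintro (rfl | ⟨j, rfl⟩)
          · exact hvF
          · exact hPC.1 j
      have hofinr : ∀ u ∈ F, ∀ x, u = Sum.inr x → u = v := by
        rintro u hu ⟨s', n'⟩ rfl
        by_contra hne
        exact hex' s' n' ⟨hu, hne⟩
      have htop : (T k).induce F = ⊤ := by
        ext a b
        rw [top_adj]
        constructor
        · intro h; exact h.ne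
        · intro hab
          show (T k).Adj a.1 b.1
          have ha := a.2
          have hb := b.2
          have hab' : a.1 ≠ b.1 := fun h => hab (Subtype.ext h)
          rcases ha' : a.1 with i | x
          · rcases hb' : b.1 with j | y
            · exact adj_root (fun h => hab' (by rw [ha', hb', h]))
            · rw [← hb', hofinr b.1 hb y hb', hv, hs]
              exact (adj_child [] n i).symm
          · have h1 : a.1 = v := hofinr a.1 ha x ha'
            rcases hb' : b.1 with j | y
            · rw [← ha', h1, hv, hs]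
              exact adj_child [] n j
            · exact absurd (h1.trans (hofinr b.1 hb y hb').symm) hab'
      rw [htop]
      apply IsKTree.complete
      rw [Nat.card_coe_set_eq, hFeq]
      have : v ∉ Set.range (Sum.inl : Fin k → Vert k) := by
        rintro ⟨j, hj⟩
        rw [hv] at hj
        exact absurd hj (by simp)
      have h2 : (Set.insert v (Set.range (Sum.inl : Fin k → Vert k))).ncard =
          (Set.range (Sum.inl : Fin k → Vert k)).ncard + 1 :=
        Set.ncard_insert_of_notMem this (Set.finite_range _)
      rw [h2, Set.ncard_eq_toFinset_card', Set.toFinset_range,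
        Finset.card_image_of_injective _ Sum.inl_injective, Finset.card_univ, Fintype.card_fin]

/-- ancestors of the children of a node -/
def anc : Node k → Finset (Vert k)
  | [] => Finset.univ.image Sum.inl
  | (n, _) :: s => insert (Sum.inr (s, n)) (anc s)

theorem inl_mem_anc (s : Node k) (j : Fin k) : Sum.inl j ∈ anc s := by
  induction s with
  | nil => simp [anc]
  | cons x s ih =>
    obtain ⟨n, i⟩ := x
    simp only [anc]
    exact Finset.mem_insert_of_mem ih

theorem Kq_mem_anc (s : Node k) (j : Fin k) : Kq s j ∈ anc s := by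
  induction s with
  | nil => simp [anc, Kq]
  | cons x s ih =>
    obtain ⟨n, i⟩ := x
    simp only [anc]
    rw [Kq_cons]
    by_cases h : j = i
    · subst h
      rw [Function.update_self]
      exact Finset.mem_insert_self _ _
    · rw [Function.update_of_ne h]
      exact Finset.mem_insert_of_mem ih

theorem anc_subset (s : Node k) : ∀ t n, Sum.inr (t, n) ∈ anc s → anc t ⊆ anc s := by
  induction s with
  | nil =>
    intro t n h
    simp [anc] at h
  | cons x s ih =>
    obtain ⟨m, i⟩ := x
    intro t n h
    simp only [anc, Finset.mem_insert] at h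
    simp only [anc]
    rcases h with h | h
    · rw [Sum.inr.injEq, Prod.mk.injEq] at h
      rw [h.1]
      exact Finset.subset_insert _ _
    · exact (ih t n h).trans (Finset.subset_insert _ _)

/-- a finite parent-closed set containing a given vertex -/
def cl : Vert k → Finset (Vert k)
  | Sum.inl _ => insert (Sum.inr ([], 0)) (anc [])
  | Sum.inr (s, n) => insert (Sum.inr (s, n)) (anc s)

theorem mem_cl (v : Vert k) : v ∈ cl v := by
  rcases v with j | ⟨s, n⟩
  · simp only [cl]
    exact Finset.mem_insert_of_mem (inl_mem_anc _ _)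
  · simp [cl]

theorem PC_insert (s : Node k) (n : ℕ) :
    PC ((insert (Sum.inr (s, n)) (anc s) : Finset (Vert k)) : Set (Vert k)) := by
  refine ⟨fun j => ?_, fun t m h j => ?_⟩
  · rw [Finset.mem_coe]
    exact Finset.mem_insert_of_mem (inl_mem_anc _ _)
  · rw [Finset.mem_coe, Finset.mem_insert] at h
    rw [Finset.mem_coe]
    apply Finset.mem_insert_of_mem
    rcases h with h | h
    · rw [Sum.inr.injEq, Prod.mk.injEq] at h
      rw [h.1]
      exact Kq_mem_anc s j
    · exact anc_subset s t m h (Kq_mem_anc t j)

theorem PC_cl (v : Vert k) : PC ((cl v : Finset (Vert k)) : Set (Vert k)) := by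
  rcases v with j | ⟨s, n⟩
  · exact PC_insert [] 0
  · exact PC_insert s n

theorem exists_inr_cl (v : Vert k) : ∃ s n, (Sum.inr (s, n) : Vert k) ∈ cl v := by
  rcases v with j | ⟨s, n⟩
  · exact ⟨[], 0, by simp [cl]⟩
  · exact ⟨s, n, by simp [cl]⟩

/-- an exhaustion of the infinite tree by finite `k`-trees -/
theorem exists_exhaustion (hk : 0 < k) : ∃ F : ℕ → Set (Vert k),
    (∀ n, (F n).Finite) ∧ (∀ n, IsKTree k ((T k).induce (F n))) ∧
    ∀ v, ∃ N, ∀ n, N ≤ n → v ∈ F n := by
  have : Nonempty (Fin k) := ⟨⟨0, hk⟩⟩
  obtain ⟨g, hg⟩ := exists_surjective_nat (Vert k)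
  refine ⟨fun n => ⋃ i ∈ Finset.range (n + 1), ((cl (g i) : Finset (Vert k)) : Set (Vert k)),
    ?_, ?_, ?_⟩
  · intro n
    exact Set.Finite.biUnion (Finset.finite_toSet _) (fun i _ => Finset.finite_toSet _)
  · intro n
    refine ktree_of_PC hk _ _ ?_ rfl ?_ ?_
    · exact Set.Finite.biUnion (Finset.finite_toSet _) (fun i _ => Finset.finite_toSet _)
    · refine ⟨fun j => ?_, fun s m h j => ?_⟩
      · simp only [Set.mem_iUnion]
        exact ⟨0, by simp, (PC_cl (g 0)).1 j⟩
      · simp only [Set.mem_iUnion] at h ⊢
        obtain ⟨i, hi, h⟩ := h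
        exact ⟨i, hi, (PC_cl (g i)).2 s m h j⟩
    · obtain ⟨s, m, h⟩ := exists_inr_cl (g 0)
      refine ⟨s, m, ?_⟩
      simp only [Set.mem_iUnion]
      exact ⟨0, by simp, h⟩
  · intro v
    obtain ⟨i, rfl⟩ := hg v
    refine ⟨i, fun n hn => ?_⟩
    simp only [Set.mem_iUnion]
    exact ⟨i, by simp; omega, mem_cl _⟩

end Pool.Agent.PageNum
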