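import Pool.Agent.PageNum.Skel
import Pool.Agent.PageNum.Tree

set_option autoImplicit false

/-!
From linear embeddings of all finite `k`-trees to the skeleton.
-/

namespace Pool.Agent.PageNum

open SimpleGraph Filter

variable {k : ℕ}

/-- data of an embedding of the infinite complete `k`-tree -/
structure InfEmb (k : ℕ) (L P : Type) [LinearOrder L] where
  pos : Vert k → L
  pg : Vert k → Vert k → P
  inj : Function.Injective pos
  symm : ∀ u v, pg u v = pg v u
  nc : ∀ a b c d, (T k).Adj a b → (T k).Adj c d → pos a < pos c → pos c < pos b → pos b < pos d →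
    pg a b ≠ pg c d
  loc : ∀ v, ∀ u : Fin (k + 1) → Vert k, (∀ i, (T k).Adj v (u i)) →
    ∃ i j, i ≠ j ∧ pg v (u i) = pg v (u j)

/-- one finite stage -/
theorem stage {F : Set (Vert k)} (hF : F.Finite) (h : HasLocal ((T k).induce F) k) :
    ∃ (pos : Vert k → ℚ) (pg : Vert k → Vert k → ℕ),
      (∀ u ∈ F, ∀ v ∈ F, pos u = pos v → u = v) ∧ (∀ u v, pg u v = pg v u) ∧
      (∀ a ∈ F, ∀ b ∈ F, ∀ c ∈ F, ∀ d ∈ F, (T k).Adj a b → (T k).Adj c d → pos a < pos c →
        pos c < pos b → pos b < pos d → pg a b ≠ pg c d) ∧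
      ∀ v ∈ F, ∀ u : Fin (k + 1) → Vert k, (∀ i, (T k).Adj v (u i)) → (∀ i, u i ∈ F) →
        ∃ i j, i ≠ j ∧ pg v (u i) = pg v (u j) := by
  classical
  obtain ⟨o, page, h1, h2⟩ := h
  have : Countable F := hF.countable.to_subtype
  obtain ⟨e⟩ := Order.embedding_from_countable_to_dense F ℚ
  refine ⟨fun u => if h : u ∈ F then e ⟨u, h⟩ else 0,
    fun u v => if h : u ∈ F ∧ v ∈ F then page s(⟨u, h.1⟩, ⟨v, h.2⟩) else 0, ?_, ?_, ?_, ?_⟩
  · intro u hu v hv huv
    simp only [hu, hv, dite_true] at huv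
    exact congrArg Subtype.val (e.injective huv)
  · intro u v
    by_cases hu : u ∈ F <;> by_cases hv : v ∈ F <;> simp [hu, hv, Sym2.eq_swap]
  · intro a ha b hb c hc d hd hab hcd h3 h4 h5 heq
    simp only [ha, hb, hc, hd, dite_true, and_self] at h3 h4 h5 heq
    rw [e.lt_iff_lt] at h3 h4 h5
    refine h1 (page s(⟨a, ha⟩, ⟨b, hb⟩)) s(⟨a, ha⟩, ⟨b, hb⟩) ⟨?_, rfl⟩ s(⟨c, hc⟩, ⟨d, hd⟩)
      ⟨?_, heq.symm⟩ ⟨_, _, _, _, h3, h4, h5, Or.inl ⟨rfl, rfl⟩⟩
    · simpa using hab
    · simpa using hcd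
  · intro v hv u hu huF
    by_contra hcon
    push Not at hcon
    have hcard := h2 ⟨v, hv⟩
    have hinj : Function.Injective (fun i : Fin (k + 1) => page s(⟨v, hv⟩, ⟨u i, huF i⟩)) := by
      intro i j hij
      by_contra hne
      have := hcon i j hne
      simp only [hv, huF, dite_true, and_self] at this
      exact this hij
    have hsub : Set.range (fun i : Fin (k + 1) => page s(⟨v, hv⟩, ⟨u i, huF i⟩)) ⊆
        {p | ∃ e ∈ pageEdges ((T k).induce F) page p, (⟨v, hv⟩ : F) ∈ e} := by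
      rintro p ⟨i, rfl⟩
      refine ⟨s(⟨v, hv⟩, ⟨u i, huF i⟩), ⟨?_, rfl⟩, by simp⟩
      simpa using hu i
    have h3 : ((k + 1 : ℕ) : ℕ∞) ≤ k := by
      refine le_trans ?_ ((Set.encard_le_encard hsub).trans hcard)
      rw [← Set.image_univ, hinj.encard_image, Set.encard_univ]
      simp
    have : k + 1 ≤ k := by exact_mod_cast h3
    omega

theorem exists_infEmb (hk : 0 < k) (hall : ∀ (V : Type) (G : SimpleGraph V), IsKTree k G →
    HasLocal G k) :
    Nonempty (InfEmb k (Germ (hyperfilter ℕ : Filter ℕ) ℚ) (Germ (hyperfilter ℕ : Filter ℕ) ℕ)) := by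
  obtain ⟨F, hF, hFt, hex⟩ := exists_exhaustion hk
  choose pos pg h1 h2 h3 h4 using fun n => stage (hF n) (hall _ _ (hFt n))
  have hev : ∀ v : Vert k, ∀ᶠ n in (hyperfilter ℕ : Filter ℕ), v ∈ F n := by
    intro v
    obtain ⟨N, hN⟩ := hex v
    have : ∀ᶠ n in (atTop : Filter ℕ), v ∈ F n := eventually_atTop.2 ⟨N, hN⟩
    exact Nat.hyperfilter_le_atTop this
  refine ⟨⟨fun v => ((fun n => pos n v : ℕ → ℚ) : Germ (hyperfilter ℕ : Filter ℕ) ℚ),
    fun u v => ((fun n => pg n u v : ℕ → ℕ) : Germ (hyperfilter ℕ : Filter ℕ) ℕ), ?_, ?_, ?_, ?_⟩⟩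
  · intro u v huv
    have h := Germ.coe_eq.1 huv
    obtain ⟨n, hn⟩ := (h.and ((hev u).and (hev v))).exists
    exact h1 n u hn.2.1 v hn.2.2 hn.1
  · intro u v
    apply Germ.coe_eq.2
    exact Eventually.of_forall (fun n => h2 n u v)
  · intro a b c d hab hcd l1 l2 l3 heq
    have l1' := Germ.coe_lt.1 l1
    have l2' := Germ.coe_lt.1 l2
    have l3' := Germ.coe_lt.1 l3
    have heq' := Germ.coe_eq.1 heq
    obtain ⟨n, hn⟩ := (((l1'.and l2').and (l3'.and heq')).and
      (((hev a).and (hev b)).and ((hev c).and (hev d)))).exists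
    exact h3 n a hn.2.1.1 b hn.2.1.2 c hn.2.2.1 d hn.2.2.2 hab hcd hn.1.1.1 hn.1.1.2 hn.1.2.1
      hn.1.2.2
  · intro v u hu
    by_contra hcon
    push Not at hcon
    have hne : ∀ i j : Fin (k + 1), ∀ᶠ n in (hyperfilter ℕ : Filter ℕ), i ≠ j →
        pg n v (u i) ≠ pg n v (u j) := by
      intro i j
      by_cases hij : i = j
      · exact Eventually.of_forall (fun n h => absurd hij h)
      · have h := hcon i j hij
        have h' : ¬ ∀ᶠ n in (hyperfilter ℕ : Filter ℕ), pg n v (u i) = pg n v (u j) :=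
          fun h' => h (Germ.coe_eq.2 h')
        have h'' := Ultrafilter.eventually_not.2 h'
        exact h''.mono (fun n hn _ => hn)
    have hall' : ∀ᶠ n in (hyperfilter ℕ : Filter ℕ), ∀ i j : Fin (k + 1), i ≠ j →
        pg n v (u i) ≠ pg n v (u j) := by
      rw [eventually_all]
      intro i
      rw [eventually_all]
      exact hne i
    have huF : ∀ᶠ n in (hyperfilter ℕ : Filter ℕ), ∀ i, u i ∈ F n := by
      rw [eventually_all]
      exact fun i => hev (u i)
    obtain ⟨n, hn⟩ := ((hall'.and huF).and (hev v)).exists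
    obtain ⟨i, j, hij, heq⟩ := h4 n v hn.2 u hu hn.1.2
    exact hn.1.1 i j hij heq

namespace InfEmb

variable {L P : Type} [LinearOrder L] (M : InfEmb k L P)

/-- pages at a vertex -/
def Pal (v : Vert k) : Set P := {q | ∃ u, (T k).Adj v u ∧ M.pg v u = q}

theorem pal_card (v : Vert k) : (M.Pal v).encard ≤ k := by
  by_contra hlt
  rw [not_le] at hlt
  have h1 : ((k + 1 : ℕ) : ℕ∞) ≤ (M.Pal v).encard := by
    have := Order.add_one_le_of_lt hlt
    exact_mod_cast this
  obtain ⟨A, hA, hcard⟩ := Set.exists_subset_encard_eq h1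
  have hAfin : A.Finite := Set.finite_of_encard_eq_coe hcard
  have hAc : Nat.card A = k + 1 := by
    rw [Nat.card_coe_set_eq, Set.ncard, hcard]
    rfl
  have : Finite A := hAfin
  have e : A ≃ Fin (k + 1) := (Finite.equivFin A).trans (finCongr hAc)
  have hu : ∀ i : Fin (k + 1), ∃ u, (T k).Adj v u ∧ M.pg v u = (e.symm i).1 :=
    fun i => hA (e.symm i).2
  choose u hu1 hu2 using hu
  obtain ⟨i, j, hij, heq⟩ := M.loc v u hu1
  rw [hu2, hu2] at heq
  exact hij (e.symm.injective (Subtype.ext heq))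

theorem pal_finite (v : Vert k) : (M.Pal v).Finite :=
  Set.finite_of_encard_le_coe (M.pal_card v)

/-- the edge relation -/
def E (q : P) (x y : L) : Prop := ∃ u v, (T k).Adj u v ∧ M.pos u = x ∧ M.pos v = y ∧ M.pg u v = q

theorem E_symm {q : P} {x y : L} (h : M.E q x y) : M.E q y x := by
  obtain ⟨u, v, h1, h2, h3, h4⟩ := h
  exact ⟨v, u, h1.symm, h3, h2, by rw [← M.symm]; exact h4⟩

theorem E_fun {q q' : P} {x y : L} (h : M.E q x y) (h' : M.E q' x y) : q = q' := by
  obtain ⟨u, v, h1, h2, h3, h4⟩ := h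
  obtain ⟨u', v', h1', h2', h3', h4'⟩ := h'
  have e1 : u = u' := M.inj (h2.trans h2'.symm)
  have e2 : v = v' := M.inj (h3.trans h3'.symm)
  subst e1; subst e2
  exact h4.symm.trans h4'

theorem E_nc {q : P} {x y z w : L} (h : M.E q x y) (h' : M.E q z w) (l1 : x < z) (l2 : z < y)
    (l3 : y < w) : False := by
  obtain ⟨u, v, h1, rfl, rfl, h4⟩ := h
  obtain ⟨u', v', h1', rfl, rfl, h4'⟩ := h'
  exact M.nc u v u' v' h1 h1' l1 l2 l3 (h4.trans h4'.symm)

theorem cross_three {q : P} {z0 z1 z2 C Y : L} (h01 : z0 < z1) (h12 : z1 < z2)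
    (hC : C < z0 ∨ z2 < C) (hY : Y < z0 ∨ z2 < Y) (hCY : C ≠ Y)
    (e0 : M.E q z0 C) (e2 : M.E q z2 C) (e1 : M.E q z1 Y) : False := by
  rcases hC with hC | hC <;> rcases hY with hY | hY
  · rcases lt_or_gt_of_ne hCY with h | h
    · exact M.E_nc (M.E_symm e0) (M.E_symm e1) h hY h01
    · exact M.E_nc (M.E_symm e1) (M.E_symm e2) h (hC.trans h01) h12
  · exact M.E_nc (M.E_symm e2) e1 (hC.trans h01) h12 hY
  · exact M.E_nc (M.E_symm e1) e0 hY h01 (h12.trans hC)
  · rcases lt_or_gt_of_ne hCY with h | h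
    · exact M.E_nc e0 e1 h01 (h12.trans hC) h
    · exact M.E_nc e1 e2 h12 hY h

/-- nine homogeneous siblings -/
theorem exists_sib (s : Node k) : ∃ g : Fin 9 → ℕ,
    StrictMono (fun n => M.pos (Sum.inr (s, g n))) ∧
    (∀ n n' j, M.pg (Sum.inr (s, g n)) (Kq s j) = M.pg (Sum.inr (s, g n')) (Kq s j)) ∧
    ∀ j, (∀ n, M.pos (Sum.inr (s, g n)) < M.pos (Kq s j)) ∨
      (∀ n, M.pos (Kq s j) < M.pos (Sum.inr (s, g n))) := by
  classical
  let τ : ℕ → (Fin k → P) × (Fin k → Bool) := fun n =>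
    (fun j => M.pg (Sum.inr (s, n)) (Kq s j), fun j => decide (M.pos (Sum.inr (s, n)) < M.pos (Kq s j)))
  have hfin : (Set.range τ).Finite := by
    have hsub : Set.range τ ⊆ (Set.univ.pi (fun j => M.Pal (Kq s j))) ×ˢ
        (Set.univ : Set (Fin k → Bool)) := by
      rintro _ ⟨n, rfl⟩
      refine ⟨fun j _ => ?_, trivial⟩
      exact ⟨Sum.inr (s, n), (adj_child s n j).symm, M.symm _ _⟩
    refine Set.Finite.subset ?_ hsub
    exact (Set.Finite.pi (fun j => M.pal_finite (Kq s j))).prod Set.finite_univ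
  have : Finite (Set.range τ) := hfin
  obtain ⟨y, hy⟩ := Finite.exists_infinite_fiber (fun n : ℕ => (⟨τ n, ⟨n, rfl⟩⟩ : Set.range τ))
  set N : Set ℕ := (fun n : ℕ => (⟨τ n, ⟨n, rfl⟩⟩ : Set.range τ)) ⁻¹' {y} with hN
  have hNinf : N.Infinite := Set.infinite_coe_iff.1 hy
  have hinj : Function.Injective (fun n : ℕ => M.pos (Sum.inr (s, n))) := by
    intro a b hab
    have := M.inj hab
    rw [Sum.inr.injEq, Prod.mk.injEq] at this
    exact this.2
  have himg : ((fun n : ℕ => M.pos (Sum.inr (s, n))) '' N).Infinite :=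
    hNinf.image hinj.injOn
  obtain ⟨t, ht, hcard⟩ := himg.exists_subset_card_eq 9
  have hmem : ∀ n : Fin 9, ∃ m, m ∈ N ∧ M.pos (Sum.inr (s, m)) = t.orderEmbOfFin hcard n := by
    intro n
    obtain ⟨m, hm, h⟩ := ht (Finset.orderEmbOfFin_mem t hcard n)
    exact ⟨m, hm, h⟩
  choose g hg1 hg2 using hmem
  have hτ : ∀ n n', τ (g n) = τ (g n') := by
    intro n n'
    have h1 := hg1 n
    have h2 := hg1 n'
    rw [hN, Set.mem_preimage, Set.mem_singleton_iff] at h1 h2
    exact congrArg Subtype.val (h1.trans h2.symm)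
  refine ⟨g, ?_, ?_, ?_⟩
  · intro a b hab
    show M.pos _ < M.pos _
    rw [hg2, hg2]
    exact (t.orderEmbOfFin hcard).strictMono hab
  · intro n n' j
    exact congrFun (congrArg Prod.fst (hτ n n')) j
  · intro j
    have hd : ∀ n, decide (M.pos (Sum.inr (s, g n)) < M.pos (Kq s j)) =
        decide (M.pos (Sum.inr (s, g 0)) < M.pos (Kq s j)) :=
      fun n => congrFun (congrArg Prod.snd (hτ n 0)) j
    have hne : ∀ n, M.pos (Sum.inr (s, g n)) ≠ M.pos (Kq s j) :=
      fun n h => (adj_child s (g n) j).ne (M.inj h)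
    by_cases h0 : M.pos (Sum.inr (s, g 0)) < M.pos (Kq s j)
    · left
      intro n
      have := hd n
      rw [decide_eq_true h0] at this
      exact of_decide_eq_true this
    · right
      intro n
      have := hd n
      rw [decide_eq_false h0] at this
      have h2 := of_decide_eq_false this
      exact lt_of_le_of_ne (not_lt.1 h2) (hne n).symm

/-- chosen siblings -/
noncomputable def g (s : Node k) : Fin 9 → ℕ := (M.exists_sib s).choose

/-- translation of words -/
noncomputable def tr : Word k → Node k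
  | [] => []
  | (i, j) :: t => (M.g (tr t) (mid i), j) :: tr t

theorem tr_cons (i : Fin 3) (j : Fin k) (t : Word k) :
    M.tr ((i, j) :: t) = (M.g (M.tr t) (mid i), j) :: M.tr t := rfl

theorem tr_length (t : Word k) : (M.tr t).length = t.length := by
  induction t with
  | nil => rfl
  | cons x t ih =>
    obtain ⟨i, j⟩ := x
    rw [tr_cons, List.length_cons, ih, List.length_cons]

theorem Kq_keep {m : Fin k} {t r : Word k} (h : Keep {m} t r) :
    Kq (M.tr r) m = Kq (M.tr t) m := by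
  obtain ⟨p, rfl, hp⟩ := h
  induction p with
  | nil => rfl
  | cons x p ih =>
    obtain ⟨i, j⟩ := x
    have hj : m ≠ j := by
      have := hp (i, j) (by simp)
      intro h
      exact this (by simp [h])
    rw [List.cons_append, tr_cons, Kq_cons, Function.update_of_ne hj]
    exact ih (fun x hx => hp x (List.mem_cons_of_mem _ hx))

theorem f_inj (s : Node k) : Function.Injective (fun j => M.pg (Sum.inr (s, M.g s 0)) (Kq s j)) := by
  obtain ⟨h1, h2, h3⟩ := (M.exists_sib s).choose_spec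
  intro m m' hmm
  by_contra hne
  have hE : ∀ n j, M.E (M.pg (Sum.inr (s, M.g s 0)) (Kq s j)) (M.pos (Sum.inr (s, M.g s n)))
      (M.pos (Kq s j)) := fun n j => ⟨_, _, adj_child s (M.g s n) j, rfl, rfl, h2 n 0 j⟩
  have e1 := hE 4 m
  simp only at hmm
  rw [hmm] at e1
  have hg : ∀ j, M.pos (Kq s j) < M.pos (Sum.inr (s, M.g s 0)) ∨
      M.pos (Sum.inr (s, M.g s 8)) < M.pos (Kq s j) := by
    intro j
    rcases h3 j with h | h
    · right; exact h 8
    · left; exact h 0
  refine M.cross_three (h1 (show (0 : Fin 9) < 4 by decide)) (h1 (show (4 : Fin 9) < 8 by decide))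
    (hg m') (hg m) ?_ (hE 0 m') (hE 8 m') e1
  intro h
  exact hne (Kq_inj s (M.inj h)).symm

/-- the skeleton of an embedding of the infinite complete `k`-tree -/
noncomputable def skel : Skel k L P where
  K t j := M.pos (Kq (M.tr t) j)
  sib t n := M.pos (Sum.inr (M.tr t, M.g (M.tr t) n))
  f t j := M.pg (Sum.inr (M.tr t, M.g (M.tr t) 0)) (Kq (M.tr t) j)
  E := M.E
  E_symm := M.E_symm
  E_fun := M.E_fun
  E_nc := M.E_nc
  E_sib t n j := ⟨_, _, adj_child (M.tr t) (M.g (M.tr t) n) j, rfl, rfl,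
    (M.exists_sib (M.tr t)).choose_spec.2.1 n 0 j⟩
  K_cons i j t := by
    funext m
    rw [tr_cons, Kq_cons]
    by_cases h : m = j
    · subst h
      rw [Function.update_self, Function.update_self]
    · rw [Function.update_of_ne h, Function.update_of_ne h]
  sib_mono t := (M.exists_sib (M.tr t)).choose_spec.1
  K_inj t := fun a b h => Kq_inj _ (M.inj h)
  gap t j := (M.exists_sib (M.tr t)).choose_spec.2.2 j
  pal t i j r hr := by
    have hv : Kq (M.tr r) j = Sum.inr (M.tr t, M.g (M.tr t) (mid i)) := by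
      rw [M.Kq_keep hr, tr_cons, Kq_cons, Function.update_self]
    set v : Vert k := Sum.inr (M.tr t, M.g (M.tr t) (mid i)) with hvdef
    have hmem : M.pg (Sum.inr (M.tr r, M.g (M.tr r) 0)) (Kq (M.tr r) j) ∈ M.Pal v := by
      rw [hv]
      refine ⟨Sum.inr (M.tr r, M.g (M.tr r) 0), ?_, M.symm _ _⟩
      have := adj_child (M.tr r) (M.g (M.tr r) 0) j
      rw [hv] at this
      exact this.symm
    have hsub : Set.range (fun j => M.pg (Sum.inr (M.tr t, M.g (M.tr t) 0)) (Kq (M.tr t) j)) ⊆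
        M.Pal v := by
      rintro _ ⟨m, rfl⟩
      exact ⟨Kq (M.tr t) m, adj_child _ _ _, (M.exists_sib (M.tr t)).choose_spec.2.1 (mid i) 0 m⟩
    have heq : Set.range (fun j => M.pg (Sum.inr (M.tr t, M.g (M.tr t) 0)) (Kq (M.tr t) j)) =
        M.Pal v := by
      refine Set.Finite.eq_of_subset_of_encard_le (Set.finite_range _) hsub ?_
      refine (M.pal_card v).trans ?_
      rw [← Set.image_univ, (M.f_inj (M.tr t)).encard_image, Set.encard_univ]
      simp
    rw [heq]
    exact hmem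
  fin t j := by
    refine (M.pal_finite (Kq (M.tr t) j)).subset ?_
    rintro q ⟨r, hr, rfl⟩
    refine ⟨Sum.inr (M.tr r, M.g (M.tr r) 0), ?_, ?_⟩
    · have := adj_child (M.tr r) (M.g (M.tr r) 0) j
      rw [M.Kq_keep hr] at this
      exact this.symm
    · rw [M.Kq_keep hr, M.symm]
  ne t i j n m := by
    intro h
    have h1 := M.inj h
    have h2 := rk_Kq (M.tr t) m
    rw [← h1] at h2
    have h3 : rk (Sum.inr (M.tr ((i, j) :: t), M.g (M.tr ((i, j) :: t)) n) : Vert k) =
      (M.tr ((i, j) :: t)).length + 1 := rfl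
    rw [h3, M.tr_length, M.tr_length, List.length_cons] at h2
    omega

end InfEmb

/-- Some `k`-tree has no linear embedding of local page number at most `k`. -/
theorem exists_not_hasLocal (hk : 3 ≤ k) :
    ∃ (V : Type) (G : SimpleGraph V), IsKTree k G ∧ ¬ HasLocal G k := by
  by_contra hcon
  push Not at hcon
  obtain ⟨M⟩ := exists_infEmb (by omega : 0 < k) hcon
  exact M.skel.absurd_of_three hk

end Pool.Agent.PageNum
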