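import Mathlib

set_option autoImplicit false

/-!
The abstract skeleton of a generic complete `k`-tree with a linear embedding of local page number
at most `k`, and the proof that it cannot exist for `3 ≤ k`.
-/

namespace Pool.Agent.PageNum

/-- words: a letter `(i, j)` means: go to the `i`-th child and put it in slot `j` -/
abbrev Word (k : ℕ) : Type := List (Fin 3 × Fin k)

/-- `r` extends `t` without replacing any slot of `A` -/
def Keep {k : ℕ} (A : Set (Fin k)) (t r : Word k) : Prop :=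
  ∃ p : Word k, r = p ++ t ∧ ∀ x ∈ p, x.2 ∉ A

theorem Keep.refl {k : ℕ} (A : Set (Fin k)) (t : Word k) : Keep A t t :=
  ⟨[], rfl, by simp⟩

theorem Keep.trans {k : ℕ} {A : Set (Fin k)} {t r u : Word k} (h1 : Keep A t r)
    (h2 : Keep A r u) : Keep A t u := by
  obtain ⟨p, rfl, hp⟩ := h1
  obtain ⟨q, rfl, hq⟩ := h2
  refine ⟨q ++ p, by simp, ?_⟩
  intro x hx
  rcases List.mem_append.1 hx with h | h
  · exact hq x h
  · exact hp x h

theorem Keep.mono {k : ℕ} {A B : Set (Fin k)} (hAB : A ⊆ B) {t r : Word k} (h : Keep B t r) :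
    Keep A t r := by
  obtain ⟨p, rfl, hp⟩ := h
  exact ⟨p, rfl, fun x hx hxA => hp x hx (hAB hxA)⟩

theorem Keep.cons {k : ℕ} {A : Set (Fin k)} {t r : Word k} (h : Keep A t r) (i : Fin 3)
    {j : Fin k} (hj : j ∉ A) : Keep A t ((i, j) :: r) := by
  obtain ⟨p, rfl, hp⟩ := h
  refine ⟨(i, j) :: p, rfl, ?_⟩
  intro x hx
  rcases List.mem_cons.1 hx with rfl | h
  · exact hj
  · exact hp x h

/-- index of the `i`-th distinguished child among nine siblings -/
def mid (i : Fin 3) : Fin 9 := ⟨3 * i.1 + 1, by omega⟩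

/-- the skeleton -/
structure Skel (k : ℕ) (L P : Type) [LinearOrder L] where
  K : Word k → Fin k → L
  sib : Word k → Fin 9 → L
  f : Word k → Fin k → P
  E : P → L → L → Prop
  E_symm : ∀ {q x y}, E q x y → E q y x
  E_fun : ∀ {q q' x y}, E q x y → E q' x y → q = q'
  E_nc : ∀ {q x y z w}, E q x y → E q z w → x < z → z < y → y < w → False
  E_sib : ∀ t n j, E (f t j) (sib t n) (K t j)
  K_cons : ∀ i j t, K ((i, j) :: t) = Function.update (K t) j (sib t (mid i))
  sib_mono : ∀ t, StrictMono (sib t)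
  K_inj : ∀ t, Function.Injective (K t)
  gap : ∀ t j, (∀ n, sib t n < K t j) ∨ (∀ n, K t j < sib t n)
  pal : ∀ t i j r, Keep {j} ((i, j) :: t) r → f r j ∈ Set.range (f t)
  fin : ∀ t j, {q | ∃ r, Keep {j} t r ∧ f r j = q}.Finite
  ne : ∀ t i j n m, sib ((i, j) :: t) n ≠ K t m

namespace Skel

variable {k : ℕ} {L P : Type} [LinearOrder L] (S : Skel k L P)

theorem K_keep {m : Fin k} {t r : Word k} (h : Keep {m} t r) : S.K r m = S.K t m := by
  obtain ⟨p, rfl, hp⟩ := h
  induction p with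
  | nil => rfl
  | cons x p ih =>
    obtain ⟨i, j⟩ := x
    have hj : m ≠ j := by
      have := hp (i, j) (by simp)
      intro h
      exact this (by simp [h])
    rw [List.cons_append, S.K_cons, Function.update_of_ne hj]
    exact ih (fun x hx => hp x (List.mem_cons_of_mem _ hx))

/-- the basic crossing configuration -/
theorem cross_three {q : P} {z0 z1 z2 C Y : L} (h01 : z0 < z1) (h12 : z1 < z2)
    (hC : C < z0 ∨ z2 < C) (hY : Y < z0 ∨ z2 < Y) (hCY : C ≠ Y)
    (e0 : S.E q z0 C) (e2 : S.E q z2 C) (e1 : S.E q z1 Y) : False := by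
  rcases hC with hC | hC <;> rcases hY with hY | hY
  · rcases lt_or_gt_of_ne hCY with h | h
    · -- C < Y < z0 < z1
      exact S.E_nc (S.E_symm e0) (S.E_symm e1) h hY h01
    · -- Y < C < z1 < z2
      exact S.E_nc (S.E_symm e1) (S.E_symm e2) h (hC.trans h01) h12
  · -- C < z1 < z2 < Y
    exact S.E_nc (S.E_symm e2) e1 (hC.trans h01) h12 hY
  · -- Y < z0 < z1 < C
    exact S.E_nc (S.E_symm e1) e0 hY h01 (h12.trans hC)
  · rcases lt_or_gt_of_ne hCY with h | h
    · -- z1 < z2 < C < Y : edges (z1,Y), (z2,C): nested; use (z0, C), (z1, Y)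
      exact S.E_nc e0 e1 h01 (h12.trans hC) h
    · -- Y < C : (z1, Y), (z2, C)
      exact S.E_nc e1 e2 h12 hY h

theorem gap' (t : Word k) (j : Fin k) : S.K t j < S.sib t 0 ∨ S.sib t 8 < S.K t j := by
  rcases S.gap t j with h | h
  · right; exact h 8
  · left; exact h 0

theorem sib_le {t : Word k} {m n : Fin 9} (h : m ≤ n) : S.sib t m ≤ S.sib t n :=
  (S.sib_mono t).monotone h

/-- location of the neighbours of a distinguished child, first step -/
theorem loc_one (t : Word k) (i : Fin 3) (j : Fin k) (n : Fin 9) :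
    S.sib t ⟨3 * i.1, by omega⟩ ≤ S.sib ((i, j) :: t) n ∧
      S.sib ((i, j) :: t) n ≤ S.sib t ⟨3 * i.1 + 2, by omega⟩ := by
  set w := S.sib ((i, j) :: t) n with hw
  set v := S.sib t (mid i) with hv
  set a := S.sib t ⟨3 * i.1, by omega⟩ with ha
  set b := S.sib t ⟨3 * i.1 + 2, by omega⟩ with hb
  have hav : a < v := S.sib_mono t (by simp [mid, Fin.lt_def])
  have hvb : v < b := S.sib_mono t (by simp [mid, Fin.lt_def])
  obtain ⟨m, hm⟩ := S.pal t i j ((i, j) :: t) (Keep.refl _ _)
  have hKj : S.K ((i, j) :: t) j = v := by rw [S.K_cons, Function.update_self]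
  have e : S.E (S.f t m) w v := by
    have := S.E_sib ((i, j) :: t) n j
    rw [hKj, ← hm] at this
    exact this
  have ea : S.E (S.f t m) a (S.K t m) := S.E_sib t _ m
  have eb : S.E (S.f t m) b (S.K t m) := S.E_sib t _ m
  have hne : w ≠ S.K t m := S.ne t i j n m
  have hKab : S.K t m < a ∨ b < S.K t m := by
    rcases S.gap t m with h | h
    · right; exact h _
    · left; exact h _
  constructor
  · by_contra hlt
    rw [not_le] at hlt
    rcases hKab with h | h
    · rcases lt_or_gt_of_ne hne with h2 | h2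
      · -- w < K < v < b
        exact S.E_nc e (S.E_symm eb) h2 (h.trans hav) hvb
      · -- K < w < a < v
        exact S.E_nc (S.E_symm ea) e h2 hlt hav
    · -- w < a < v < K
      exact S.E_nc e ea hlt hav (hvb.trans h)
  · by_contra hlt
    rw [not_le] at hlt
    rcases hKab with h | h
    · -- K < v < b < w
      exact S.E_nc (S.E_symm eb) (S.E_symm e) (h.trans hav) hvb hlt
    · rcases lt_or_gt_of_ne hne with h2 | h2
      · -- v < b < w < K
        exact S.E_nc (S.E_symm e) eb hvb hlt h2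
      · -- a < v < K < w
        exact S.E_nc ea (S.E_symm e) hav (hvb.trans h) h2

/-- location of all descendants -/
theorem loc (t : Word k) (i : Fin 3) (j : Fin k) (p : Word k) (n : Fin 9) :
    S.sib t ⟨3 * i.1, by omega⟩ ≤ S.sib (p ++ (i, j) :: t) n ∧
      S.sib (p ++ (i, j) :: t) n ≤ S.sib t ⟨3 * i.1 + 2, by omega⟩ := by
  induction p generalizing n with
  | nil => exact S.loc_one t i j n
  | cons x p ih =>
    obtain ⟨i', j'⟩ := x
    have h := S.loc_one (p ++ (i, j) :: t) i' j' n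
    exact ⟨(ih _).1.trans h.1, h.2.trans (ih _).2⟩

/-- pages used by the vertex in slot `l` below `t` -/
def U (t : Word k) (l : Fin k) : Set P := {q | ∃ r, Keep {l} t r ∧ S.f r l = q}

theorem U_mono {l : Fin k} {t r : Word k} (h : Keep {l} t r) : S.U r l ⊆ S.U t l := by
  rintro q ⟨u, hu, rfl⟩
  exact ⟨u, h.trans hu, rfl⟩

/-- initial segment of slots -/
def seg (k : ℕ) (l : ℕ) : Set (Fin k) := {i | i.1 ≤ l}

theorem exists_stable (m : ℕ) : ∃ s : Word k, ∀ l : Fin k, l.1 < m → ∀ t,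
    Keep (seg k l.1) s t → S.U t l = S.U s l := by
  induction m with
  | zero => exact ⟨[], fun l hl => absurd hl (Nat.not_lt_zero _)⟩
  | succ m ih =>
    obtain ⟨s, hs⟩ := ih
    by_cases hmk : m < k
    · let lm : Fin k := ⟨m, hmk⟩
      have hex : ∃ N : ℕ, ∃ t, Keep (seg k m) s t ∧ (S.U t lm).ncard = N :=
        ⟨_, s, Keep.refl _ _, rfl⟩
      classical
      obtain ⟨t0, ht0, hN⟩ := Nat.find_spec hex
      refine ⟨t0, ?_⟩
      intro l hl t ht
      rcases Nat.lt_succ_iff_lt_or_eq.1 hl with h | h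
      · have h1 : Keep (seg k l.1) s t0 := by
          refine Keep.mono ?_ ht0
          intro i hi
          exact le_trans (show i.1 ≤ l.1 from hi) h.le
        rw [hs l h t (h1.trans ht), hs l h t0 h1]
      · have hl' : l = lm := Fin.ext h
        subst hl'
        have hsub : S.U t lm ⊆ S.U t0 lm := by
          apply S.U_mono
          refine Keep.mono ?_ ht
          intro i hi
          rw [Set.mem_singleton_iff] at hi
          subst hi
          exact Nat.le_refl m
        refine Set.eq_of_subset_of_ncard_le hsub ?_ (S.fin t0 lm)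
        rw [hN]
        exact Nat.find_min' hex ⟨t, ht0.trans ht, rfl⟩
    · refine ⟨s, ?_⟩
      intro l hl t ht
      exact hs l (by have := l.2; omega) t ht

theorem f_ne {t : Word k} {m m' : Fin k} (hm : m ≠ m') : S.f t m ≠ S.f t m' := by
  intro h
  have h1 := S.gap' t m
  have h2 := S.gap' t m'
  have e1 := S.E_sib t 4 m
  rw [h] at e1
  refine S.cross_three (q := S.f t m') (z0 := S.sib t 0) (z1 := S.sib t 4) (z2 := S.sib t 8)
    (C := S.K t m') (Y := S.K t m) (S.sib_mono t (by decide)) (S.sib_mono t (by decide)) h2 h1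
    (fun h => hm (S.K_inj t h).symm) (S.E_sib t 0 m') (S.E_sib t 8 m') e1

/-- Lemma D -/
theorem f_ne_of_keep {t r : Word k} {p : Word k} {j m m' : Fin k} (hr : r = p ++ (1, j) :: t)
    (hm : m ≠ m') (hk : Keep {m} t r) : S.f r m ≠ S.f t m' := by
  intro h
  have h1 := S.gap' t m
  have h2 := S.gap' t m'
  have e1 := S.E_sib r 4 m
  rw [h, S.K_keep hk] at e1
  have hl := S.loc t 1 j p 4
  rw [← hr] at hl
  refine S.cross_three (q := S.f t m') (z0 := S.sib t 0) (z1 := S.sib r 4) (z2 := S.sib t 8)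
    (C := S.K t m') (Y := S.K t m) ?_ ?_ h2 h1
    (fun h => hm (S.K_inj t h).symm) (S.E_sib t 0 m') (S.E_sib t 8 m') e1
  · exact lt_of_lt_of_le (S.sib_mono t (by decide)) hl.1
  · exact lt_of_le_of_lt hl.2 (S.sib_mono t (by decide))

/-- Lemma P: stable pages cannot be used by other old vertices -/
theorem not_mem_U {s t r : Word k} {l b m : Fin k} (hlb : l.1 < b.1)
    (hst : ∀ t', Keep (seg k l.1) s t' → S.U t' l = S.U s l)
    (ht : Keep (seg k l.1) s t) (hr : r = t ∨ ∃ p j, r = p ++ (1, j) :: t)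
    (hml : m ≠ l) (hk : Keep {m} t r) : S.f r m ∉ S.U s l := by
  intro hq
  have hbseg : b ∉ seg k l.1 := fun h => absurd (show b.1 ≤ l.1 from h) (not_le.2 hlb)
  have hlbne : b ∉ ({l} : Set (Fin k)) := by
    intro h
    rw [Set.mem_singleton_iff] at h
    subst h
    exact lt_irrefl _ hlb
  have h0 := hst _ (ht.cons 0 hbseg)
  have h2 := hst _ (ht.cons 2 hbseg)
  obtain ⟨r0, hr0, hf0⟩ : S.f r m ∈ S.U ((0, b) :: t) l := by rw [h0]; exact hq
  obtain ⟨r2, hr2, hf2⟩ : S.f r m ∈ S.U ((2, b) :: t) l := by rw [h2]; exact hq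
  have e0 := S.E_sib r0 0 l
  have e2 := S.E_sib r2 0 l
  have e1 := S.E_sib r 4 m
  have k0 : S.K r0 l = S.K t l := S.K_keep (((Keep.refl _ t).cons 0 hlbne).trans hr0)
  have k2 : S.K r2 l = S.K t l := S.K_keep (((Keep.refl _ t).cons 2 hlbne).trans hr2)
  rw [hf0, k0] at e0
  rw [hf2, k2] at e2
  rw [S.K_keep hk] at e1
  obtain ⟨p0, rfl, -⟩ := hr0
  obtain ⟨p2, rfl, -⟩ := hr2
  have l0 := S.loc t 0 b p0 0
  have l2 := S.loc t 2 b p2 0
  have l1 : S.sib t 3 ≤ S.sib r 4 ∧ S.sib r 4 ≤ S.sib t 5 := by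
    rcases hr with rfl | ⟨p, j, rfl⟩
    · exact ⟨S.sib_le (by decide), S.sib_le (by decide)⟩
    · exact S.loc t 1 j p 4
  have a1 := S.gap' t l
  have a2 := S.gap' t m
  refine S.cross_three (C := S.K t l) (Y := S.K t m) ?_ ?_ ?_ ?_
    (fun h => hml (S.K_inj t h).symm) e0 e2 e1
  · exact lt_of_le_of_lt l0.2 (lt_of_lt_of_le (S.sib_mono t (by decide)) l1.1)
  · exact lt_of_le_of_lt l1.2 (lt_of_lt_of_le (S.sib_mono t (by decide)) l2.1)
  · rcases a1 with h | h
    · left; exact lt_of_lt_of_le h l0.1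
    · right; exact lt_of_le_of_lt l2.2 h
  · rcases a2 with h | h
    · left; exact lt_of_lt_of_le h l0.1
    · right; exact lt_of_le_of_lt l2.2 h

theorem same_side {q : P} {W' W'' w Y : L} (h : (W' < W'' ∧ W'' < w) ∨ (w < W'' ∧ W'' < W'))
    (hY : (Y < W' ∧ Y < W'' ∧ Y < w) ∨ (W' < Y ∧ W'' < Y ∧ w < Y))
    (e1 : S.E q W' w) (e2 : S.E q W'' Y) : False := by
  rcases h with ⟨h1, h2⟩ | ⟨h1, h2⟩ <;> rcases hY with ⟨y1, y2, y3⟩ | ⟨y1, y2, y3⟩
  · exact S.E_nc (S.E_symm e2) e1 y1 h1 h2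
  · exact S.E_nc e1 e2 h1 h2 y3
  · exact S.E_nc (S.E_symm e2) (S.E_symm e1) y3 h1 h2
  · exact S.E_nc (S.E_symm e1) e2 h1 h2 y1

include S in
theorem absurd_of_three (hk : 3 ≤ k) : False := by
  obtain ⟨s, hs⟩ := S.exists_stable (k - 1)
  let a : Fin k := ⟨k - 2, by omega⟩
  let b : Fin k := ⟨k - 1, by omega⟩
  let c : Fin k := ⟨k - 3, by omega⟩
  have hab : a ≠ b := by intro h; have := congrArg Fin.val h; simp [a, b] at this; omega
  have hac : a ≠ c := by intro h; have := congrArg Fin.val h; simp [a, c] at this; omega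
  have hbc : b ≠ c := by intro h; have := congrArg Fin.val h; simp [b, c] at this; omega
  have hcases : ∀ l : Fin k, l = b ∨ l = a ∨ l.1 ≤ k - 3 := by
    intro l
    have := l.2
    by_cases h1 : l.1 = k - 1
    · left; exact Fin.ext h1
    · by_cases h2 : l.1 = k - 2
      · right; left; exact Fin.ext h2
      · right; right; omega
  have bseg : ∀ l : Fin k, l.1 < k - 1 → b ∉ seg k l.1 := by
    intro l hl h
    have : k - 1 ≤ l.1 := h
    omega
  have aseg : ∀ l : Fin k, l.1 ≤ k - 3 → a ∉ seg k l.1 := by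
    intro l hl h
    have : k - 2 ≤ l.1 := h
    omega
  have cseg : ∀ l : Fin k, l.1 < k - 3 → c ∉ seg k l.1 := by
    intro l hl h
    have : k - 3 ≤ l.1 := h
    omega
  set t : Word k := (1, b) :: s with ht
  set ta : Word k := (1, a) :: t with hta
  have Kt : ∀ l : Fin k, l.1 < k - 1 → Keep (seg k l.1) s t :=
    fun l hl => (Keep.refl _ s).cons 1 (bseg l hl)
  have Kta : ∀ l : Fin k, l.1 ≤ k - 3 → Keep (seg k l.1) s ta :=
    fun l hl => (Kt l (by omega)).cons 1 (aseg l hl)
  -- general use of Lemma P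
  have P1 : ∀ l : Fin k, l.1 < k - 1 → ∀ t' r : Word k, Keep (seg k l.1) s t' →
      (r = t' ∨ ∃ p j, r = p ++ (1, j) :: t') → ∀ m : Fin k, m ≠ l → Keep {m} t' r →
      S.f r m ∉ S.U s l := by
    intro l hl t' r h1 h2 m h3 h4
    exact S.not_mem_U (b := b) (show l.1 < k - 1 from hl) (hs l hl) h1 h2 h3 h4
  have inU : ∀ l : Fin k, l.1 < k - 1 → ∀ t' : Word k, Keep {l} s t' → S.f t' l ∈ S.U s l :=
    fun l hl t' h => ⟨t', h, rfl⟩
  have keepb : Keep ({b} : Set (Fin k)) t ta := (Keep.refl _ t).cons 1 (by simpa using hab)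
  -- pages to the vertex in slot b
  have hb_of : ∀ r : Word k, Keep {b} ta r → (r = ta ∨ ∃ p j, r = p ++ (1, j) :: ta) →
      S.f r b = S.f s b := by
    intro r hr hr'
    obtain ⟨l, hl⟩ := S.pal s 1 b r (keepb.trans hr)
    rcases hcases l with rfl | rfl | h
    · exact hl.symm
    · exfalso
      have h1 : S.f s a ∈ S.U s a := ⟨s, Keep.refl _ _, rfl⟩
      rw [hl] at h1
      refine P1 a (show k - 2 < k - 1 by omega) t r (Kt a (show k - 2 < k - 1 by omega)) ?_ b
        hab.symm (keepb.trans hr) h1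
      right
      rcases hr' with rfl | ⟨p, j, rfl⟩
      · exact ⟨[], a, rfl⟩
      · exact ⟨p ++ [(1, j)], a, by simp [hta]⟩
    · exfalso
      have h1 : S.f s l ∈ S.U s l := ⟨s, Keep.refl _ _, rfl⟩
      rw [hl] at h1
      refine P1 l (by omega) ta r (Kta l h) hr' b ?_ hr h1
      intro h2
      rw [← h2] at h
      have : k - 1 ≤ k - 3 := h
      omega
  have ftb : S.f t b = S.f s b := by
    obtain ⟨l, hl⟩ := S.pal s 1 b t (Keep.refl _ _)
    by_cases hlb : l = b
    · rw [← hl, hlb]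
    · exfalso
      have hlt : l.1 < k - 1 := by
        have := l.2
        rcases Nat.lt_or_ge l.1 (k - 1) with h | h
        · exact h
        · exact absurd (Fin.ext (show l.1 = k - 1 by omega)) hlb
      have h1 : S.f s l ∈ S.U s l := ⟨s, Keep.refl _ _, rfl⟩
      rw [hl] at h1
      exact P1 l hlt t t (Kt l hlt) (Or.inl rfl) b (fun h => hlb h.symm) (Keep.refl _ _) h1
  have ftab : S.f ta b = S.f s b := hb_of ta (Keep.refl _ _) (Or.inl rfl)
  have keep_l_t : ∀ l : Fin k, l.1 ≤ k - 3 → Keep ({l} : Set (Fin k)) s t := by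
    intro l hl
    refine (Kt l (by omega)).mono ?_
    intro i hi
    rw [Set.mem_singleton_iff] at hi
    subst hi
    exact Nat.le_refl _
  have keep_l_ta : ∀ l : Fin k, l.1 ≤ k - 3 → Keep ({l} : Set (Fin k)) s ta := by
    intro l hl
    refine (Kta l hl).mono ?_
    intro i hi
    rw [Set.mem_singleton_iff] at hi
    subst hi
    exact Nat.le_refl _
  -- pages to the vertex in slot a
  have ha_of : ∀ r : Word k, Keep {a} ta r → (r = ta ∨ ∃ p j, r = p ++ (1, j) :: ta) →
      S.f r a = S.f t a := by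
    intro r hr hr'
    obtain ⟨l, hl⟩ := S.pal t 1 a r hr
    rcases hcases l with rfl | rfl | h
    · exfalso
      rcases hr' with h' | ⟨p, j, h'⟩
      · subst h'
        rw [ftb, ← ftab] at hl
        exact S.f_ne hab.symm hl
      · rw [ftb, ← ftab] at hl
        exact S.f_ne_of_keep h' hab hr hl.symm
    · exact hl.symm
    · exfalso
      have h1 : S.f t l ∈ S.U s l := inU l (by omega) t (keep_l_t l h)
      rw [hl] at h1
      refine P1 l (by omega) ta r (Kta l h) hr' a ?_ hr h1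
      intro h2
      rw [← h2] at h
      have : k - 2 ≤ k - 3 := h
      omega
  have ftaa : S.f ta a = S.f t a := ha_of ta (Keep.refl _ _) (Or.inl rfl)
  -- the three nodes
  set ra : Word k := (1, a) :: ta with hra
  set rb : Word k := (1, b) :: ta with hrb
  set rc : Word k := (1, c) :: ta with hrc
  have fra_b : S.f ra b = S.f s b := hb_of ra ((Keep.refl _ _).cons 1 (by simpa using hab))
    (Or.inr ⟨[], a, rfl⟩)
  have frc_b : S.f rc b = S.f s b := hb_of rc ((Keep.refl _ _).cons 1 (by simpa using hbc.symm))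
    (Or.inr ⟨[], c, rfl⟩)
  have frb_a : S.f rb a = S.f t a := ha_of rb ((Keep.refl _ _).cons 1 (by simpa using hab.symm))
    (Or.inr ⟨[], b, rfl⟩)
  have frc_a : S.f rc a = S.f t a := ha_of rc ((Keep.refl _ _).cons 1 (by simpa using hac.symm))
    (Or.inr ⟨[], c, rfl⟩)
  have fra_a : S.f ra a = S.f t a := by
    obtain ⟨l, hl⟩ := S.pal ta 1 a ra (Keep.refl _ _)
    rcases hcases l with rfl | rfl | h
    · exfalso
      rw [ftab, ← fra_b] at hl
      exact S.f_ne hab.symm hl
    · rw [← hl, ftaa]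
    · exfalso
      have h1 : S.f ta l ∈ S.U s l := inU l (by omega) ta (keep_l_ta l h)
      rw [hl] at h1
      refine P1 l (by omega) ra ra ((Kta l h).cons 1 (aseg l h)) (Or.inl rfl) a ?_
        (Keep.refl _ _) h1
      intro h2
      rw [← h2] at h
      have : k - 2 ≤ k - 3 := h
      omega
  have frb_b : S.f rb b = S.f s b := by
    obtain ⟨l, hl⟩ := S.pal ta 1 b rb (Keep.refl _ _)
    rcases hcases l with rfl | rfl | h
    · rw [← hl, ftab]
    · exfalso
      rw [ftaa, ← frb_a] at hl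
      exact S.f_ne hab hl
    · exfalso
      have h1 : S.f ta l ∈ S.U s l := inU l (by omega) ta (keep_l_ta l h)
      rw [hl] at h1
      refine P1 l (by omega) rb rb ((Kta l h).cons 1 (bseg l (by omega))) (Or.inl rfl) b ?_
        (Keep.refl _ _) h1
      intro h2
      rw [← h2] at h
      have : k - 1 ≤ k - 3 := h
      omega
  have frc_c : S.f rc c = S.f ta c := by
    obtain ⟨l, hl⟩ := S.pal ta 1 c rc (Keep.refl _ _)
    rcases hcases l with rfl | rfl | h
    · exfalso
      rw [ftab, ← frc_b] at hl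
      exact S.f_ne hbc hl
    · exfalso
      rw [ftaa, ← frc_a] at hl
      exact S.f_ne hac hl
    · by_cases hlc : l = c
      · rw [← hl, hlc]
      · exfalso
        have hlt : l.1 < k - 3 := by
          rcases Nat.lt_or_ge l.1 (k - 3) with h' | h'
          · exact h'
          · exact absurd (Fin.ext (show l.1 = k - 3 by omega)) hlc
        have h1 : S.f ta l ∈ S.U s l := inU l (by omega) ta (keep_l_ta l h)
        rw [hl] at h1
        exact P1 l (by omega) rc rc ((Kta l h).cons 1 (cseg l hlt)) (Or.inl rfl) c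
          (fun h' => hlc h'.symm) (Keep.refl _ _) h1
  -- geometry
  set w : L := S.sib ta 4 with hw
  have hKw : ∀ x : Fin k, S.K ((1, x) :: ta) x = w := by
    intro x
    rw [S.K_cons, Function.update_self]
    rfl
  have hKo : ∀ x m : Fin k, m ≠ x → S.K ((1, x) :: ta) m = S.K ta m := by
    intro x m hm
    rw [S.K_cons, Function.update_of_ne hm]
  have ew : ∀ x : Fin k, S.E (S.f ((1, x) :: ta) x) (S.sib ((1, x) :: ta) 4) w := by
    intro x
    have := S.E_sib ((1, x) :: ta) 4 x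
    rwa [hKw] at this
  have eo : ∀ x m : Fin k, m ≠ x →
      S.E (S.f ((1, x) :: ta) m) (S.sib ((1, x) :: ta) 4) (S.K ta m) := by
    intro x m hm
    have := S.E_sib ((1, x) :: ta) 4 m
    rwa [hKo x m hm] at this
  have loc3 : ∀ x : Fin k, ∀ n, S.sib ta 3 ≤ S.sib ((1, x) :: ta) n ∧
      S.sib ((1, x) :: ta) n ≤ S.sib ta 5 := fun x n => S.loc ta 1 x [] n
  have w35 : S.sib ta 3 ≤ w ∧ w ≤ S.sib ta 5 := ⟨S.sib_le (by decide), S.sib_le (by decide)⟩
  have s03 : S.sib ta 0 < S.sib ta 3 := S.sib_mono ta (by decide)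
  have s58 : S.sib ta 5 < S.sib ta 8 := S.sib_mono ta (by decide)
  have outY : ∀ (m : Fin k) (W' W'' : L), S.sib ta 3 ≤ W' → W' ≤ S.sib ta 5 →
      S.sib ta 3 ≤ W'' → W'' ≤ S.sib ta 5 →
      (S.K ta m < W' ∧ S.K ta m < W'' ∧ S.K ta m < w) ∨
      (W' < S.K ta m ∧ W'' < S.K ta m ∧ w < S.K ta m) := by
    intro m W' W'' h1 h2 h3 h4
    rcases S.gap' ta m with h | h
    · left
      exact ⟨(h.trans s03).trans_le h1, (h.trans s03).trans_le h3, (h.trans s03).trans_le w35.1⟩
    · right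
      exact ⟨(h2.trans_lt s58).trans h, (h4.trans_lt s58).trans h,
        (w35.2.trans_lt s58).trans h⟩
  have side : ∀ x : Fin k, (∀ n, S.sib ((1, x) :: ta) n < w) ∨ (∀ n, w < S.sib ((1, x) :: ta) n) := by
    intro x
    have := S.gap ((1, x) :: ta) x
    rwa [hKw] at this
  -- far-near principle
  have farnear : ∀ x x' m : Fin k, m ≠ x' → S.f ((1, x) :: ta) x = S.f ((1, x') :: ta) m →
      ¬ ((S.sib ((1, x) :: ta) 4 < S.sib ((1, x') :: ta) 4 ∧ S.sib ((1, x') :: ta) 4 < w) ∨
        (w < S.sib ((1, x') :: ta) 4 ∧ S.sib ((1, x') :: ta) 4 < S.sib ((1, x) :: ta) 4)) := by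
    intro x x' m hm hf h
    have e1 := ew x
    rw [hf] at e1
    exact S.same_side h (outY m _ _ (loc3 x 4).1 (loc3 x 4).2 (loc3 x' 4).1 (loc3 x' 4).2) e1
      (eo x' m hm)
  -- the branches at ra and rb keep using the page of rc
  have branch : ∀ x : Fin k, x = a ∨ x = b →
      ¬ ((S.sib rc 4 < S.sib ((1, x) :: ta) 4 ∧ S.sib ((1, x) :: ta) 4 < w) ∨
        (w < S.sib ((1, x) :: ta) 4 ∧ S.sib ((1, x) :: ta) 4 < S.sib rc 4)) := by
    intro x hx h
    have hxseg : x ∉ seg k c.1 := by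
      rcases hx with rfl | rfl
      · exact aseg c (Nat.le_refl _)
      · exact bseg c (show k - 3 < k - 1 by omega)
    have hxc : x ∉ ({c} : Set (Fin k)) := by
      rcases hx with rfl | rfl
      · simpa using hac
      · simpa using hbc
    have hKc : Keep (seg k c.1) s ((1, x) :: ta) := (Kta c (Nat.le_refl _)).cons 1 hxseg
    have hp : S.f rc c ∈ S.U s c := by
      rw [frc_c]
      exact inU c (show k - 3 < k - 1 by omega) ta (keep_l_ta c (Nat.le_refl _))
    have getz : ∀ i : Fin 3, ∃ z, S.E (S.f rc c) z (S.K ta c) ∧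
        S.sib ((1, x) :: ta) ⟨3 * i.1, by omega⟩ ≤ z ∧
        z ≤ S.sib ((1, x) :: ta) ⟨3 * i.1 + 2, by omega⟩ := by
      intro i
      have h1 := hs c (show k - 3 < k - 1 by omega) _ (hKc.cons i (j := x) hxseg)
      rw [← h1] at hp
      obtain ⟨r', hr', hf'⟩ := hp
      refine ⟨S.sib r' 0, ?_, ?_⟩
      · have e := S.E_sib r' 0 c
        rw [hf'] at e
        have : S.K r' c = S.K ta c :=
          S.K_keep ((((Keep.refl _ ta).cons 1 hxc).cons i hxc).trans hr')
        rwa [this] at e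
      · obtain ⟨p, rfl, -⟩ := hr'
        exact S.loc ((1, x) :: ta) i x p 0
    have ewc := ew c
    rcases h with ⟨h1, h2⟩ | ⟨h1, h2⟩
    · obtain ⟨z, ez, z1, z2⟩ := getz 2
      have z1' : S.sib ((1, x) :: ta) 4 < z :=
        lt_of_lt_of_le (S.sib_mono _ (by simp [Fin.lt_def])) z1
      have z2' : z < w := by
        rcases side x with h' | h'
        · exact lt_of_le_of_lt z2 (h' _)
        · exact absurd (h' 4) (not_lt.2 h2.le)
      refine S.same_side (W' := S.sib rc 4) (W'' := z) (Or.inl ⟨h1.trans z1', z2'⟩)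
        (outY c _ _ (loc3 c 4).1 (loc3 c 4).2 ((loc3 x _).1.trans z1) (z2.trans (loc3 x _).2))
        ewc ez
    · obtain ⟨z, ez, z1, z2⟩ := getz 0
      have z1' : z < S.sib ((1, x) :: ta) 4 :=
        lt_of_le_of_lt z2 (S.sib_mono _ (by simp [Fin.lt_def]))
      have z2' : w < z := by
        rcases side x with h' | h'
        · exact absurd (h' 4) (not_lt.2 h1.le)
        · exact lt_of_lt_of_le (h' _) z1
      refine S.same_side (W' := S.sib rc 4) (W'' := z) (Or.inr ⟨z2', z1'.trans h2⟩)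
        (outY c _ _ (loc3 c 4).1 (loc3 c 4).2 ((loc3 x _).1.trans z1) (z2.trans (loc3 x _).2))
        ewc ez
  -- distinctness
  have hxy : S.f t a ≠ S.f s b := by
    rw [← ftaa, ← ftab]
    exact S.f_ne hab
  have hne : ∀ x x' : Fin k, S.f ((1, x) :: ta) x ≠ S.f ((1, x') :: ta) x' →
      S.sib ((1, x) :: ta) 4 ≠ S.sib ((1, x') :: ta) 4 := by
    intro x x' h1 h2
    have e1 := ew x
    have e2 := ew x'
    rw [h2] at e1
    exact h1 (S.E_fun e1 e2)
  have dab : S.sib ra 4 ≠ S.sib rb 4 := by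
    apply hne a b
    rw [← hra, ← hrb, fra_a, frb_b]
    exact hxy
  have dac : S.sib ra 4 ≠ S.sib rc 4 := by
    apply hne a c
    rw [← hra, ← hrc, fra_a, frc_c, ← ftaa]
    exact S.f_ne hac
  have dbc : S.sib rb 4 ≠ S.sib rc 4 := by
    apply hne b c
    rw [← hrb, ← hrc, frb_b, frc_c, ← ftab]
    exact S.f_ne hbc
  -- pairs on the same side
  have nab1 := farnear a b a hab (by rw [← hra, ← hrb, fra_a, frb_a])
  have nab2 := farnear b a b hab.symm (by rw [← hra, ← hrb, frb_b, fra_b])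
  have nac1 := farnear a c a hac (by rw [← hra, ← hrc, fra_a, frc_a])
  have nbc1 := farnear b c b hbc (by rw [← hrb, ← hrc, frb_b, frc_b])
  have nac2 := branch a (Or.inl rfl)
  have nbc2 := branch b (Or.inr rfl)
  rw [← hra, ← hrb] at nab1 nab2
  rw [← hra, ← hrc] at nac1
  rw [← hrb, ← hrc] at nbc1
  rw [← hra] at nac2
  rw [← hrb] at nbc2
  have sa := side a
  have sb := side b
  have sc := side c
  rw [← hra] at sa
  rw [← hrb] at sb
  rw [← hrc] at sc
  push Not at nab1 nab2 nac1 nbc1 nac2 nbc2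
  rcases sa with sa | sa <;> rcases sb with sb | sb <;> rcases sc with sc | sc
  · rcases lt_or_gt_of_ne dab with h | h
    · exact absurd (sb 4) (not_lt.2 (nab1.1 h))
    · exact absurd (sa 4) (not_lt.2 (nab2.1 h))
  · rcases lt_or_gt_of_ne dab with h | h
    · exact absurd (sb 4) (not_lt.2 (nab1.1 h))
    · exact absurd (sa 4) (not_lt.2 (nab2.1 h))
  · rcases lt_or_gt_of_ne dac with h | h
    · exact absurd (sc 4) (not_lt.2 (nac1.1 h))
    · exact absurd (sa 4) (not_lt.2 (nac2.1 h))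
  · rcases lt_or_gt_of_ne dbc with h | h
    · exact absurd h (not_lt.2 (nbc2.2 (sb 4)))
    · exact absurd h (not_lt.2 (nbc1.2 (sc 4)))
  · rcases lt_or_gt_of_ne dbc with h | h
    · exact absurd (sc 4) (not_lt.2 (nbc1.1 h))
    · exact absurd (sb 4) (not_lt.2 (nbc2.1 h))
  · rcases lt_or_gt_of_ne dac with h | h
    · exact absurd h (not_lt.2 (nac2.2 (sa 4)))
    · exact absurd h (not_lt.2 (nac1.2 (sc 4)))
  · rcases lt_or_gt_of_ne dab with h | h
    · exact absurd h (not_lt.2 (nab2.2 (sa 4)))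
    · exact absurd h (not_lt.2 (nab1.2 (sb 4)))
  · rcases lt_or_gt_of_ne dab with h | h
    · exact absurd h (not_lt.2 (nab2.2 (sa 4)))
    · exact absurd h (not_lt.2 (nab1.2 (sb 4)))

end Skel

end Pool.Agent.PageNum
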