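import Pool.Agent.PageNum.Defs

set_option autoImplicit false

namespace Pool.Agent.PageNum

open SimpleGraph

theorem HasLocal.mono {V : Type} {G : SimpleGraph V} {m m' : ℕ} (h : HasLocal G m) (hm : m ≤ m') :
    HasLocal G m' := by
  obtain ⟨o, page, h1, h2⟩ := h
  exact ⟨o, page, h1, fun v => (h2 v).trans (by exact_mod_cast hm)⟩

theorem IsKTree.finite {k : ℕ} {V : Type} {G : SimpleGraph V} (h : IsKTree k G) : Finite V := by
  induction h with
  | complete h => exact Nat.finite_of_card_ne_zero (by omega)
  | @add V G v hG hc hk ih =>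
    have h1 : ({v}ᶜ : Set V).Finite := Set.toFinite _
    have h2 : (Set.univ : Set V).Finite := by
      have : (Set.univ : Set V) = {v} ∪ {v}ᶜ := by simp
      rw [this]
      exact (Set.finite_singleton v).union h1
    exact Set.finite_univ_iff.1 h2

/-- colouring and birth order of a `k`-tree -/
theorem IsKTree.colouring {k : ℕ} {V : Type} {G : SimpleGraph V} (h : IsKTree k G) :
    ∃ (c : V → ℕ) (b : V → ℕ), (∀ v, c v < k + 1) ∧ (∀ u v, G.Adj u v → c u ≠ c v) ∧
      (∀ u v, G.Adj u v → b u ≠ b v) ∧
      (∀ v u u', G.Adj v u → G.Adj v u' → b u < b v → b u' < b v → c u = c u' → u = u') := by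
  induction h with
  | @complete V h =>
    have : Finite V := Nat.finite_of_card_ne_zero (by omega)
    have e : V ≃ Fin (k + 1) := (Finite.equivFin V).trans (finCongr h)
    refine ⟨fun v => (e v).1, fun v => (e v).1, fun v => (e v).2, ?_, ?_, ?_⟩
    · intro u v huv h'
      exact huv.ne (e.injective (Fin.ext h'))
    · intro u v huv h'
      exact huv.ne (e.injective (Fin.ext h'))
    · intro v u u' _ _ _ _ h'
      exact e.injective (Fin.ext h')
  | @add V G v hG hc hk ih =>
    classical
    obtain ⟨c, b, h1, h2, h3, h4⟩ := ih
    have hfin : Finite V := (IsKTree.add G v hG hc hk).finite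
    have := Fintype.ofFinite V
    -- a free colour
    obtain ⟨q, hq, hq'⟩ : ∃ q, q < k + 1 ∧ ∀ u (hu : G.Adj v u), c ⟨u, by simpa using hu.ne'⟩ ≠ q := by
      by_contra hcon
      push Not at hcon
      let c' : V → ℕ := fun u => if h : u = v then 0 else c ⟨u, h⟩
      have hcon' : ∀ q : ℕ, ∃ u, q < k + 1 → G.Adj v u ∧ c' u = q := by
        intro q
        by_cases hq : q < k + 1
        · obtain ⟨u, hu, hcu⟩ := hcon q hq
          exact ⟨u, fun _ => ⟨hu, by simp only [c', hu.ne', dite_false]; exact hcu⟩⟩
        · exact ⟨v, fun h => absurd h hq⟩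
      choose g hg using hcon'
      have hsub : (Finset.range (k + 1)).card ≤ (G.neighborSet v).toFinset.card := by
        refine Finset.card_le_card_of_injOn g ?_ ?_
        · intro q hq
          have hq : q < k + 1 := Finset.mem_range.1 (Finset.mem_coe.1 hq)
          rw [Finset.mem_coe, Set.mem_toFinset]
          exact (hg q hq).1
        · intro q hq q' hq' heq
          have hq : q < k + 1 := Finset.mem_range.1 (Finset.mem_coe.1 hq)
          have hq' : q' < k + 1 := Finset.mem_range.1 (Finset.mem_coe.1 hq')
          rw [← (hg q hq).2, ← (hg q' hq').2, heq]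
      rw [Finset.card_range, ← Set.ncard_eq_toFinset_card', hk] at hsub
      omega
    obtain ⟨B, hB⟩ : ∃ B : ℕ, ∀ u, b u < B := by
      obtain ⟨B, hB⟩ := (Set.finite_range b).bddAbove
      exact ⟨B + 1, fun u => Nat.lt_succ_of_le (hB ⟨u, rfl⟩)⟩
    refine ⟨fun u => if h : u = v then q else c ⟨u, h⟩, fun u => if h : u = v then B else b ⟨u, h⟩,
      ?_, ?_, ?_, ?_⟩
    · intro u
      by_cases h : u = v
      · simp [h, hq]
      · simp only [h, dite_false]
        exact h1 _
    · intro u u' huu'
      by_cases h : u = v
      · subst h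
        have h' : u' ≠ u := huu'.ne'
        simp only [dite_true, h', dite_false]
        exact (hq' u' huu').symm
      · by_cases h' : u' = v
        · subst h'
          simp only [dite_true, h, dite_false]
          exact hq' u huu'.symm
        · simp only [h, h', dite_false]
          exact h2 _ _ (by simpa using huu')
    · intro u u' huu'
      by_cases h : u = v
      · subst h
        have h' : u' ≠ u := huu'.ne'
        simp only [dite_true, h', dite_false]
        exact (hB _).ne'
      · by_cases h' : u' = v
        · subst h'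
          simp only [dite_true, h, dite_false]
          exact (hB _).ne
        · simp only [h, h', dite_false]
          exact h3 _ _ (by simpa using huu')
    · intro x u u' hxu hxu' hb hb' hcc
      by_cases hx : x = v
      · subst hx
        have hu : u ≠ x := hxu.ne'
        have hu' : u' ≠ x := hxu'.ne'
        by_contra hne
        have hadj : G.Adj u u' := hc hxu hxu' hne
        simp only [hu, hu', dite_false] at hcc
        exact h2 ⟨u, hu⟩ ⟨u', hu'⟩ (by simpa using hadj) hcc
      · by_cases hu : u = v
        · subst hu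
          simp only [dite_true, hx, dite_false] at hb
          exact absurd (hB _) (not_lt.2 hb.le)
        · by_cases hu' : u' = v
          · subst hu'
            simp only [dite_true, hx, dite_false] at hb'
            exact absurd (hB _) (not_lt.2 hb'.le)
          · simp only [hx, hu, hu', dite_false] at hb hb' hcc
            have := h4 ⟨x, hx⟩ ⟨u, hu⟩ ⟨u', hu'⟩ (by simpa using hxu) (by simpa using hxu') hb hb'
              hcc
            exact congrArg Subtype.val this

/-- star forests: every `k`-tree has union page number at most `k + 1` -/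
theorem IsKTree.hasUnion {k : ℕ} {V : Type} {G : SimpleGraph V} (h : IsKTree k G) :
    HasUnion G (k + 1) := by
  classical
  obtain ⟨c, b, h1, h2, h3, h4⟩ := h.colouring
  have := h.finite
  have : Countable V := Finite.to_countable
  obtain ⟨ι, hι⟩ : ∃ ι : V → ℕ, Function.Injective ι := Countable.exists_injective_nat V
  let o : LinearOrder V := LinearOrder.lift' ι hι
  -- colour of the older end
  let pg : Sym2 V → ℕ := Sym2.lift ⟨fun u v => if b u < b v then c u else if b v < b u then c v
    else 0, by
      intro u v
      rcases lt_trichotomy (b u) (b v) with h | h | h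
      · simp [h, not_lt.2 h.le]
      · simp [h]
      · simp [h, not_lt.2 h.le]⟩
  have hpg : ∀ u v, b u < b v → pg s(u, v) = c u := by
    intro u v huv
    show (if b u < b v then c u else if b v < b u then c v else 0) = c u
    rw [if_pos huv]
  refine ⟨o, pg, ?_, ?_⟩
  · intro e he
    induction e using Sym2.ind with
    | _ u v =>
      have hadj : G.Adj u v := he
      rcases lt_or_gt_of_ne (h3 u v hadj) with h | h
      · rw [hpg u v h]; exact h1 u
      · rw [Sym2.eq_swap, hpg v u h]; exact h1 v
  · intro p C e he f hf hcross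
    -- the centre of the star
    let cen : V → V := fun v => if c v = p then v else
      if hx : ∃ u, G.Adj v u ∧ b u < b v ∧ c u = p then hx.choose else v
    have hcen : ∀ u v, G.Adj u v → b u < b v → c u = p → cen u = u ∧ cen v = u := by
      intro u v hadj hb hc
      have hv : c v ≠ p := fun h => h2 u v hadj (hc.trans h.symm)
      have hx : ∃ u, G.Adj v u ∧ b u < b v ∧ c u = p := ⟨u, hadj.symm, hb, hc⟩
      refine ⟨by simp [cen, hc], ?_⟩
      simp only [cen, hv, if_false, dif_pos hx]
      obtain ⟨g1, g2, g3⟩ := hx.choose_spec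
      exact h4 v _ _ g1 hadj.symm g2 hb (g3.trans hc.symm)
    -- normal form of an edge of the page
    have hedge : ∀ e ∈ pageEdges G pg p, ∃ u v, e = s(u, v) ∧ G.Adj u v ∧ b u < b v ∧ c u = p := by
      intro e he
      induction e using Sym2.ind with
      | _ u v =>
        have hadj : G.Adj u v := he.1
        rcases lt_or_gt_of_ne (h3 u v hadj) with h | h
        · exact ⟨u, v, rfl, hadj, h, by rw [← hpg u v h]; exact he.2⟩
        · refine ⟨v, u, Sym2.eq_swap, hadj.symm, h, ?_⟩
          rw [← hpg v u h, Sym2.eq_swap]; exact he.2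
    have hcomp : ∀ u v, (fromEdgeSet (pageEdges G pg p)).Reachable u v → cen u = cen v := by
      intro u v huv
      obtain ⟨w⟩ := huv
      induction w with
      | nil => rfl
      | @cons u v w hadj _ ih =>
        rw [← ih]
        rw [fromEdgeSet_adj] at hadj
        obtain ⟨u', v', heq, g1, g2, g3⟩ := hedge _ hadj.1
        obtain ⟨g4, g5⟩ := hcen u' v' g1 g2 g3
        rcases Sym2.eq_iff.1 heq with ⟨rfl, rfl⟩ | ⟨rfl, rfl⟩
        · rw [g4, g5]
        · rw [g4, g5]
    obtain ⟨u, v, rfl, g1, g2, g3⟩ := hedge e he.1
    obtain ⟨u', v', rfl, g1', g2', g3'⟩ := hedge f hf.1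
    have hu : u ∈ C.supp := he.2 u (by simp)
    have hu' : u' ∈ C.supp := hf.2 u' (by simp)
    have hreach : (fromEdgeSet (pageEdges G pg p)).Reachable u u' := by
      rw [ConnectedComponent.mem_supp_iff] at hu hu'
      exact ConnectedComponent.exact (hu.trans hu'.symm)
    have huu : u = u' := by
      have := hcomp u u' hreach
      rwa [(hcen u v g1 g2 g3).1, (hcen u' v' g1' g2' g3').1] at this
    subst huu
    obtain ⟨x, y, z, w, l1, l2, l3, h⟩ := hcross
    have hdis : ∀ {e f : Sym2 V}, e = s(x, z) → f = s(y, w) → u ∈ e → u ∈ f → False := by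
      rintro e f rfl rfl hue huf
      rw [Sym2.mem_iff] at hue huf
      rcases hue with rfl | rfl <;> rcases huf with h | h
      · exact absurd h l1.ne
      · exact absurd h ((l1.trans l2).trans l3).ne
      · exact absurd h l2.ne'
      · exact absurd h l3.ne
    rcases h with ⟨e1, e2⟩ | ⟨e1, e2⟩
    · exact hdis e1 e2 (by simp) (by simp)
    · exact hdis e1 e2 (by simp) (by simp)

theorem HasUnion.hasLocal {V : Type} [Finite V] {G : SimpleGraph V} {m : ℕ} (h : HasUnion G m) :
    HasLocal G m := by
  classical
  obtain ⟨o, page, h1, h2⟩ := h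
  obtain ⟨ι, hι⟩ : ∃ ι : ℕ × Set V → ℕ, Function.Injective ι := Countable.exists_injective_nat _
  let H : ℕ → SimpleGraph V := fun p => fromEdgeSet (pageEdges G page p)
  -- the vertex set of the component of an edge
  let comp : Sym2 V → Set V := fun e => {x | ∃ v ∈ e, (H (page e)).Reachable v x}
  have hadj : ∀ u v, G.Adj u v → (H (page s(u, v))).Adj u v := by
    intro u v huv
    show (fromEdgeSet _).Adj u v
    rw [fromEdgeSet_adj]
    exact ⟨⟨huv, rfl⟩, huv.ne⟩
  have hcomp : ∀ e ∈ G.edgeSet, ∀ v ∈ e, comp e = {x | (H (page e)).Reachable v x} := by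
    intro e he v hv
    induction e using Sym2.ind with
    | _ a b =>
      have hab := hadj a b he
      ext x
      constructor
      · rintro ⟨w, hw, hwx⟩
        rw [Sym2.mem_iff] at hw hv
        rcases hw with rfl | rfl <;> rcases hv with rfl | rfl
        · exact hwx
        · exact hab.symm.reachable.trans hwx
        · exact hab.reachable.trans hwx
        · exact hwx
      · intro hx
        exact ⟨v, hv, hx⟩
  refine ⟨o, fun e => ι (page e, comp e), ?_, ?_⟩
  · intro p e he f hf hcross
    have hef : (page e, comp e) = (page f, comp f) := hι (he.2.trans hf.2.symm)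
    rw [Prod.mk.injEq] at hef
    obtain ⟨hp, hcc⟩ := hef
    have hv : ∃ v, v ∈ e := by
      induction e using Sym2.ind with
      | _ a b => exact ⟨a, by simp⟩
    obtain ⟨v, hv⟩ := hv
    let C := (H (page e)).connectedComponentMk v
    refine h2 (page e) C e ⟨⟨he.1, rfl⟩, ?_⟩ f ⟨⟨hf.1, hp.symm⟩, ?_⟩ hcross
    · intro w hw
      rw [ConnectedComponent.mem_supp_iff]
      apply ConnectedComponent.sound
      have : v ∈ comp e := by
        rw [hcomp e he.1 v hv]; exact Reachable.refl _
      rw [hcomp e he.1 w hw] at this
      exact this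
    · intro w hw
      rw [ConnectedComponent.mem_supp_iff]
      apply ConnectedComponent.sound
      have : v ∈ comp e := by
        rw [hcomp e he.1 v hv]; exact Reachable.refl _
      rw [hcc, hcomp f hf.1 w hw, ← hp] at this
      exact this
  · intro v
    have hsub : {p | ∃ e ∈ pageEdges G (fun e => ι (page e, comp e)) p, v ∈ e} ⊆
        (fun p => ι (p, {x | (H p).Reachable v x})) '' {p | p < m} := by
      rintro p ⟨e, ⟨he, rfl⟩, hv⟩
      refine ⟨page e, h1 e he, ?_⟩
      show ι (page e, {x | (H (page e)).Reachable v x}) = ι (page e, comp e)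
      rw [hcomp e he v hv]
    refine (Set.encard_le_encard hsub).trans ((Set.encard_image_le _ _).trans ?_)
    have : {p | p < m} = ((Finset.range m : Finset ℕ) : Set ℕ) := by
      ext p; simp
    rw [this, Set.encard_coe_eq_coe_finsetCard, Finset.card_range]

theorem IsKTree.hasLocal {k : ℕ} {V : Type} {G : SimpleGraph V} (h : IsKTree k G) :
    HasLocal G (k + 1) := by
  have := h.finite
  exact h.hasUnion.hasLocal

end Pool.Agent.PageNum
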